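import Mathlib
import Pool.Agent.H.MP_ec05f5_lc.D

namespace Pool.Agent.Results.MP_ec05f5_lc.Q1

open Pool.Agent.H.MP_ec05f5_lc

theorem result (H : Type) [NormedAddCommGroup H] [InnerProductSpace ℂ H] [CompleteSpace H]
    [TopologicalSpace.SeparableSpace H] (h : ¬ FiniteDimensional ℂ H) :
    ¬ Red (fun _ => True) (Ess (H := H)) C0 ∧ ¬ Red IsStarProjection (Ess (H := H)) C0 := by
  obtain ⟨w, b, -⟩ := exists_hilbertBasis ℂ H
  haveI : Infinite w := not_finite_iff_infinite.1 fun _ => h (by
    haveI := Fintype.ofFinite w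
    exact b.toOrthonormalBasis.toBasis.finiteDimensional_of_finite)
  haveI : Countable w := Pairwise.countable_of_isOpen_disjoint
    (s := fun i => Metric.ball (b i) (1 / 2)) (fun i j hij => Metric.ball_disjoint_ball (by
      have := norm_sub_sq (𝕜 := ℂ) (b i) (b j)
      rw [b.orthonormal.1, b.orthonormal.1, b.orthonormal.2 hij] at this
      rw [dist_eq_norm]
      refine le_of_sq_le_sq ?_ (norm_nonneg _)
      rw [this]
      norm_num)) (fun _ => Metric.isOpen_ball) fun _ => Metric.nonempty_ball.2 (by norm_num)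
  obtain ⟨e⟩ : Nonempty (ℕ × Bool ≃ w) := nonempty_equiv_of_countable
  have := q1 (HilbertBasis.mk (b.orthonormal.comp e e.injective)
    (by rw [e.surjective.range_comp, b.dense_span]))
  exact ⟨fun ⟨f, f1, f2⟩ => this ⟨fun a => f ⟨a.1, trivial⟩,
    f1.comp (measurable_comap_iff.2 (comap_measurable _)),
    fun a b => f2 ⟨a.1, trivial⟩ ⟨b.1, trivial⟩⟩, this⟩

end Pool.Agent.Results.MP_ec05f5_lc.Q1
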