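import Mathlib
import Pool.Agent.H.MP_ec05f5_lc.F

namespace Pool.Agent.Results.MP_ec05f5_lc.Q2

open Pool.Agent.H.MP_ec05f5_lc

theorem result (H : Type) [NormedAddCommGroup H] [InnerProductSpace ℂ H] [CompleteSpace H]
    (e : HilbertBasis ℕ ℂ H) : ¬ Red (fun _ => True) (Sch4 e) L4 := q2 e

end Pool.Agent.Results.MP_ec05f5_lc.Q2
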